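import Pool.Agent.H476R2.Pal.Defs
import Pool.Agent.Helper112.Arith

/-!
# T7: summation over `q` (asymptotic bookkeeping)
-/

set_option autoImplicit false

namespace Pool.Agent.H760R2.PalT7

open Finset Filter Topology Pool.Agent.Helper112 Pool.Agent.H476R2.Pal

/-- exponential decay in `√L` beats every power of `L` -/
lemma dec (c C : ℝ) (hc : 0 < c) (hC : 0 ≤ C) (A : ℕ) :
    ∀ᶠ L : ℕ in atTop, C * Real.exp (-(c * Real.sqrt L)) ≤ 1 / (L : ℝ) ^ A := by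
  have h1 : Tendsto (fun L : ℕ => c * Real.sqrt L) atTop atTop :=
    (Real.tendsto_sqrt_atTop.comp tendsto_natCast_atTop_atTop).const_mul_atTop hc
  have h2 := (Real.tendsto_pow_mul_exp_neg_atTop_nhds_zero (2 * A)).comp h1
  have hη : 0 < c ^ (2 * A) / (C + 1) := by positivity
  filter_upwards [h2.eventually_lt_const hη, eventually_ge_atTop 1] with L hL hL1
  simp only [Function.comp] at hL
  have hLp : (0 : ℝ) < L := by exact_mod_cast hL1
  have h3 : Real.sqrt (L : ℝ) ^ (2 * A) = (L : ℝ) ^ A := by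
    rw [pow_mul, Real.sq_sqrt hLp.le]
  rw [mul_pow, h3, lt_div_iff₀ (by positivity)] at hL
  rw [le_div_iff₀ (by positivity)]
  have hcA : 0 < c ^ (2 * A) := by positivity
  have h4 : (L : ℝ) ^ A * Real.exp (-(c * Real.sqrt L)) * (C + 1) < 1 := by
    by_contra hcon
    push Not at hcon
    have := mul_le_mul_of_nonneg_left hcon hcA.le
    nlinarith
  have h5 : 0 < (L : ℝ) ^ A * Real.exp (-(c * Real.sqrt L)) := by positivity
  nlinarith

/-- the small range -/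
lemma small (κ : ℝ) (h0 : 0 < κ) (h1 : κ < 1) (A : ℕ) :
    ∃ c1 : ℝ, 0 < c1 ∧ ∀ᶠ L : ℕ in atTop, ∀ j : ℕ, (j : ℝ) ≤ c1 * Real.sqrt L →
      (2 : ℝ) ^ (3 * j + 2) * (1 - κ) ^ ((L - 1) / (2 * j + 4)) ≤ 1 / (L : ℝ) ^ A := by
  set lam : ℝ := -Real.log (1 - κ) with hlam
  have hlam0 : 0 < lam := by
    have := Real.log_neg (show 0 < 1 - κ by linarith) (by linarith)
    rw [hlam]; linarith
  set c1 : ℝ := min 1 (lam / 24) with hc1
  have hc10 : 0 < c1 := lt_min one_pos (by positivity)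
  have hc11 : c1 ≤ 1 := min_le_left _ _
  have hc12 : 24 * c1 ≤ lam := by
    have : c1 ≤ lam / 24 := min_le_right _ _
    linarith
  refine ⟨c1, hc10, ?_⟩
  have hsq : Tendsto (fun L : ℕ => Real.sqrt L) atTop atTop :=
    Real.tendsto_sqrt_atTop.comp tendsto_natCast_atTop_atTop
  filter_upwards [dec 1 (Real.exp (2 + lam)) one_pos (Real.exp_pos _).le A,
    hsq.eventually_ge_atTop (4 / c1), eventually_ge_atTop 2] with L hL hx hL2 j hj
  refine le_trans ?_ hL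
  rw [← Real.exp_add]
  set x : ℝ := Real.sqrt L with hxdef
  have hx2 : x ^ 2 = L := Real.sq_sqrt (Nat.cast_nonneg L)
  have hcx : 4 ≤ c1 * x := by
    rw [div_le_iff₀ hc10] at hx
    linarith
  have hx0 : 0 < x := by
    by_contra hcon
    push Not at hcon
    have := mul_nonpos_of_nonneg_of_nonpos hc10.le hcon
    linarith
  set n0 : ℕ := (L - 1) / (2 * j + 4) with hn0
  have hL2' : (2 : ℝ) ≤ L := by exact_mod_cast hL2
  -- n0 is large
  have e1 : L - 1 < (2 * j + 4) * (n0 + 1) := by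
    have := Nat.lt_mul_div_succ (L - 1) (show 0 < 2 * j + 4 by omega)
    exact this
  have e2 : (L : ℝ) / 2 ≤ (2 * (j : ℝ) + 4) * (n0 + 1) := by
    have e3 : L ≤ (2 * j + 4) * (n0 + 1) := by omega
    have e4 : (L : ℝ) ≤ (2 * (j : ℝ) + 4) * (n0 + 1) := by exact_mod_cast e3
    linarith
  have e5 : x ^ 2 / 2 ≤ 3 * (c1 * x) * (n0 + 1) := by
    rw [hx2]
    refine e2.trans (mul_le_mul_of_nonneg_right (by linarith) (by positivity))
  have e6 : x ≤ 6 * c1 * (n0 + 1) := by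
    have : x * (x / 2) ≤ x * (3 * c1 * (n0 + 1)) := by nlinarith
    have := le_of_mul_le_mul_left this hx0
    linarith
  have e7 : 4 * x ≤ lam * (n0 + 1) := by
    have : 24 * c1 * ((n0 : ℝ) + 1) ≤ lam * (n0 + 1) :=
      mul_le_mul_of_nonneg_right hc12 (by positivity)
    linarith
  have e8 : (1 - κ) ^ n0 = Real.exp (-(lam * n0)) := by
    rw [← Real.exp_log (show 0 < 1 - κ by linarith), ← Real.exp_nat_mul]
    congr 1
    rw [hlam]
    ring
  have e9 : (2 : ℝ) ^ (3 * j + 2) ≤ Real.exp (3 * j + 2) := by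
    have h2e : (2 : ℝ) ≤ Real.exp 1 := by
      have := Real.add_one_le_exp (1 : ℝ); linarith
    calc (2 : ℝ) ^ (3 * j + 2) ≤ Real.exp 1 ^ (3 * j + 2) := pow_le_pow_left₀ (by norm_num) h2e _
      _ = Real.exp (3 * j + 2) := by rw [← Real.exp_nat_mul]; push_cast; ring_nf
  rw [e8]
  calc (2 : ℝ) ^ (3 * j + 2) * Real.exp (-(lam * n0))
      ≤ Real.exp (3 * j + 2) * Real.exp (-(lam * n0)) :=
        mul_le_mul_of_nonneg_right e9 (Real.exp_pos _).le
    _ = Real.exp (3 * j + 2 - lam * n0) := by rw [← Real.exp_add]; ring_nf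
    _ ≤ Real.exp (2 + lam + -(1 * x)) := by
        apply Real.exp_le_exp.2
        have : (j : ℝ) ≤ x := hj.trans (by nlinarith)
        linarith

/-- dyadic decomposition -/
lemma cover (D : ℕ) (g : ℕ → ℝ) (hg : ∀ q, 0 ≤ g q) :
    ∑ q ∈ (Icc 2 D).filter (fun q => q.Coprime 10), g q ≤
      ∑ j ∈ Icc 1 (Nat.log 2 D), ∑ q ∈ (Ico (2 ^ j) (2 * 2 ^ j)).filter (fun q => q.Coprime 10),
        g q := by
  have hmaps : ∀ q ∈ (Icc 2 D).filter (fun q => q.Coprime 10), Nat.log 2 q ∈ Icc 1 (Nat.log 2 D) := by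
    intro q hq
    rw [mem_filter, mem_Icc] at hq
    rw [mem_Icc]
    exact ⟨Nat.log_pos (by norm_num) hq.1.1, Nat.log_mono_right hq.1.2⟩
  rw [← sum_fiberwise_of_maps_to hmaps]
  apply sum_le_sum
  intro j _
  apply sum_le_sum_of_subset_of_nonneg
  · intro q hq
    rw [mem_filter, mem_filter, mem_Icc] at hq
    obtain ⟨⟨⟨h1, h2⟩, h3⟩, h4⟩ := hq
    rw [mem_filter, mem_Ico]
    refine ⟨⟨?_, ?_⟩, h3⟩
    · rw [← h4]; exact Nat.pow_log_le_self 2 (by omega)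
    · rw [← h4]
      have := Nat.lt_pow_succ_log_self (b := 2) (by norm_num) q
      rw [pow_succ] at this
      omega
  · intro q _ _
    exact hg q

lemma U_nonneg (L q : ℕ) : 0 ≤ U L q := sum_nonneg fun _ _ => Ps_nonneg _ _ _ _

/-- a dyadic block in terms of `pts` -/
lemma block (L Q : ℕ) (hQ : 1 ≤ Q) (d C : ℝ) (hd : 0 ≤ d) (hC : 0 ≤ C)
    (hτ : ∀ n : ℕ, 1 ≤ n → (n.divisors.card : ℝ) ^ 2 ≤ C * (n : ℝ) ^ d) :
    ∑ q ∈ (Ico Q (2 * Q)).filter (fun q => q.Coprime 10),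
      (q.divisors.card : ℝ) ^ 2 * U L q / q ≤
      C * (2 * Q : ℝ) ^ d / Q * pts Q (Ps L 0 L) := by
  unfold pts
  rw [mul_sum]
  apply sum_le_sum
  intro q hq
  rw [mem_filter, mem_Ico] at hq
  obtain ⟨⟨h1, h2⟩, h3⟩ := hq
  have hQ0 : (0 : ℝ) < Q := by exact_mod_cast hQ
  have hq0 : (0 : ℝ) < q := by exact_mod_cast (show 0 < q by omega)
  have hU := U_nonneg L q
  have e1 : (q.divisors.card : ℝ) ^ 2 ≤ C * (2 * Q : ℝ) ^ d := by
    refine (hτ q (by omega)).trans (mul_le_mul_of_nonneg_left ?_ hC)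
    apply Real.rpow_le_rpow hq0.le _ hd
    exact_mod_cast h2.le
  have e2 : (1 : ℝ) / q ≤ 1 / Q := by
    apply one_div_le_one_div_of_le hQ0
    exact_mod_cast h1
  calc (q.divisors.card : ℝ) ^ 2 * U L q / q
      = (q.divisors.card : ℝ) ^ 2 * U L q * (1 / q) := by ring
    _ ≤ (C * (2 * Q : ℝ) ^ d) * U L q * (1 / Q) := by
        apply mul_le_mul (mul_le_mul_of_nonneg_right e1 hU) e2 (by positivity)
        have : 0 ≤ C * (2 * Q : ℝ) ^ d := by positivity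
        exact mul_nonneg this hU
    _ = C * (2 * Q : ℝ) ^ d / Q * U L q := by ring

/-- the small range: a dyadic block -/
lemma block_small (κ : ℝ) (h1 : κ < 1)
    (hp : ∀ q t a L : ℕ, 1 < q → q.Coprime 10 → a.Coprime q →
      q < 10 ^ t → Ps L 0 L ((a : ℝ) / q) ≤ (1 - κ) ^ ((L - 1) / (2 * t + 2)))
    (L j : ℕ) (hj : 1 ≤ j) :
    ∑ q ∈ (Ico (2 ^ j) (2 * 2 ^ j)).filter (fun q => q.Coprime 10),
      (q.divisors.card : ℝ) ^ 2 * U L q / q ≤
      (2 : ℝ) ^ (3 * j + 2) * (1 - κ) ^ ((L - 1) / (2 * j + 4)) := by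
  have hk : 0 < 1 - κ := by linarith
  set E : ℝ := (1 - κ) ^ ((L - 1) / (2 * j + 4)) with hE
  have hE0 : 0 < E := by positivity
  have hterm : ∀ q ∈ (Ico (2 ^ j) (2 * 2 ^ j)).filter (fun q => q.Coprime 10),
      (q.divisors.card : ℝ) ^ 2 * U L q / q ≤ (2 * 2 ^ j) ^ 2 * E := by
    intro q hq
    rw [mem_filter, mem_Ico] at hq
    obtain ⟨⟨h2, h3⟩, h4⟩ := hq
    have h2j : 2 ^ 1 ≤ 2 ^ j := Nat.pow_le_pow_right (by norm_num) hj
    have hq1 : 1 < q := by omega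
    have hq0 : (0 : ℝ) < q := by exact_mod_cast (show 0 < q by omega)
    have hq10 : q < 10 ^ (j + 1) := by
      calc q < 2 * 2 ^ j := h3
        _ = 2 ^ (j + 1) := by ring
        _ ≤ 10 ^ (j + 1) := Nat.pow_le_pow_left (by norm_num) _
    have hU : U L q ≤ q * E := by
      unfold U
      calc ∑ a ∈ (range q).filter (fun a => a.Coprime q), Ps L 0 L ((a : ℝ) / q)
          ≤ ∑ a ∈ (range q).filter (fun a => a.Coprime q), E := by
            apply sum_le_sum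
            intro a ha
            rw [mem_filter] at ha
            have := hp q (j + 1) a L hq1 h4 ha.2 hq10
            have e : 2 * (j + 1) + 2 = 2 * j + 4 := by ring
            rw [e] at this
            exact this
        _ = (((range q).filter (fun a => a.Coprime q)).card : ℝ) * E := by
            rw [sum_const, nsmul_eq_mul]
        _ ≤ q * E := by
            apply mul_le_mul_of_nonneg_right _ hE0.le
            have := card_filter_le (range q) (fun a => a.Coprime q)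
            rw [card_range] at this
            exact_mod_cast this
    have hτ : (q.divisors.card : ℝ) ≤ 2 * 2 ^ j := by
      have e1 : q.divisors.card ≤ q := Nat.card_divisors_le_self q
      have e2 : q.divisors.card ≤ 2 * 2 ^ j := by omega
      exact_mod_cast e2
    rw [div_le_iff₀ hq0]
    calc (q.divisors.card : ℝ) ^ 2 * U L q ≤ (2 * 2 ^ j) ^ 2 * (q * E) := by
          apply mul_le_mul _ hU (U_nonneg L q) (by positivity)
          exact pow_le_pow_left₀ (by positivity) hτ 2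
      _ = (2 * 2 ^ j) ^ 2 * E * q := by ring
  calc _ ≤ ∑ q ∈ (Ico (2 ^ j) (2 * 2 ^ j)).filter (fun q => q.Coprime 10),
        ((2 * 2 ^ j) ^ 2 * E : ℝ) := sum_le_sum hterm
    _ = (((Ico (2 ^ j) (2 * 2 ^ j)).filter (fun q => q.Coprime 10)).card : ℝ)
        * ((2 * 2 ^ j) ^ 2 * E) := by rw [sum_const, nsmul_eq_mul]
    _ ≤ 2 ^ j * ((2 * 2 ^ j) ^ 2 * E) := by
        apply mul_le_mul_of_nonneg_right _ (by positivity)
        have := card_filter_le (Ico (2 ^ j) (2 * 2 ^ j)) (fun q => q.Coprime 10)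
        rw [Nat.card_Ico] at this
        have e : 2 * 2 ^ j - 2 ^ j = 2 ^ j := by omega
        rw [e] at this
        exact_mod_cast this
    _ = (2 : ℝ) ^ (3 * j + 2) * E := by ring

lemma clog_facts (n : ℕ) (hn : 2 ≤ n) :
    n ≤ 10 ^ Nat.clog 10 n ∧ 10 ^ Nat.clog 10 n ≤ 10 * n ∧ 1 ≤ Nat.clog 10 n := by
  have h1 := Nat.le_pow_clog (b := 10) (by norm_num) n
  have h2 := Nat.pow_pred_clog_lt_self (b := 10) (by norm_num) (x := n) (by omega)
  have h3 : 0 < Nat.clog 10 n := Nat.clog_pos (by norm_num) hn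
  refine ⟨h1, ?_, h3⟩
  have h4 : Nat.clog 10 n = (Nat.clog 10 n).pred + 1 := (Nat.succ_pred_eq_of_pos h3).symm
  rw [h4, pow_succ]
  omega

lemma log_ten_le : Real.log 10 ≤ 3 := by
  have h1 : Real.log 10 = Real.log 8 + Real.log (10 / 8) := by
    rw [← Real.log_mul (by norm_num) (by norm_num)]; norm_num
  have h2 : Real.log 8 = 3 * Real.log 2 := by
    rw [show (8 : ℝ) = 2 ^ 3 by norm_num, Real.log_pow]; norm_num
  have h3 := Real.log_two_lt_d9
  have h4 := Real.log_le_sub_one_of_pos (show (0 : ℝ) < 10 / 8 by norm_num)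
  rw [h1, h2]
  linarith

lemma log_ten_log_two : 3 * Real.log 10 ≤ 10 * Real.log 2 := by
  have h1 : Real.log ((10 : ℝ) ^ 3) ≤ Real.log ((2 : ℝ) ^ 10) :=
    Real.log_le_log (by norm_num) (by norm_num)
  rw [Real.log_pow, Real.log_pow] at h1
  exact_mod_cast h1

/-- the middle range -/
lemma mid_range (c1 C : ℝ) (hc1 : 0 < c1) (hC : 0 < C) (A : ℕ)
    (hτ : ∀ n : ℕ, 1 ≤ n → (n.divisors.card : ℝ) ^ 2 ≤ C * (n : ℝ) ^ (1 / 100 : ℝ))
    (mid : ∀ L J Q : ℕ, 1 + 20 * J ≤ L → 1 ≤ Q → Q ^ 2 ≤ 10 ^ J → 10 ^ J ≤ 10 * Q ^ 2 →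
      pts Q (Ps L 0 L) ≤ 3000 * Q * (98 / 100) ^ J) :
    ∀ᶠ L : ℕ in atTop, ∀ j : ℕ, 1 ≤ j → c1 * Real.sqrt L < j →
      (2 : ℝ) ^ j ≤ (10 : ℝ) ^ ((L : ℝ) / 50) →
      ∑ q ∈ (Ico (2 ^ j) (2 * 2 ^ j)).filter (fun q => q.Coprime 10),
        (q.divisors.card : ℝ) ^ 2 * U L q / q ≤ 1 / (L : ℝ) ^ A := by
  filter_upwards [dec (c1 / 200) (3000 * C * Real.exp 1) (by positivity) (by positivity) A,
    eventually_ge_atTop 105] with L hL hL105 j hj hcj hj50
  refine le_trans ?_ hL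
  set Q : ℕ := 2 ^ j with hQ
  have hQ2 : 2 ≤ Q := by
    calc 2 = 2 ^ 1 := by norm_num
      _ ≤ 2 ^ j := Nat.pow_le_pow_right (by norm_num) hj
  have hQ0 : (0 : ℝ) < Q := by exact_mod_cast (show 0 < Q by omega)
  have hQr : (Q : ℝ) = 2 ^ j := by rw [hQ]; push_cast; ring
  have hQ4 : 2 ≤ Q ^ 2 := by nlinarith
  obtain ⟨f1, f2, f3⟩ := clog_facts (Q ^ 2) hQ4
  set J : ℕ := Nat.clog 10 (Q ^ 2) with hJ
  have hl10 : 0 < Real.log 10 := Real.log_pos (by norm_num)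
  -- J is at most L/25 + 1
  have hlogQ : Real.log Q ≤ (L : ℝ) / 50 * Real.log 10 := by
    have := Real.log_le_log (by positivity) hj50
    rw [Real.log_rpow (by norm_num), ← hQr] at this
    exact this
  have hJL : 1 + 20 * J ≤ L := by
    have h1 : ((10 ^ J : ℕ) : ℝ) ≤ ((10 * Q ^ 2 : ℕ) : ℝ) := by exact_mod_cast f2
    push_cast at h1
    have h2 := Real.log_le_log (by positivity) h1
    rw [Real.log_pow, Real.log_mul (by norm_num) (by positivity), Real.log_pow] at h2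
    push_cast at h2
    have h3 : (J : ℝ) * Real.log 10 ≤ (1 + (L : ℝ) / 25) * Real.log 10 := by nlinarith
    have h4 := le_of_mul_le_mul_right h3 hl10
    have h5 : (105 : ℝ) ≤ L := by exact_mod_cast hL105
    have h6 : (1 : ℝ) + 20 * J ≤ L := by linarith
    exact_mod_cast h6
  have hpts := mid L J Q hJL (by omega) f1 f2
  have hb := block L Q (by omega) (1 / 100) C (by norm_num) hC.le hτ
  refine hb.trans ?_
  have hpos : 0 ≤ C * (2 * Q : ℝ) ^ (1 / 100 : ℝ) / Q := by positivity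
  refine (mul_le_mul_of_nonneg_left hpts hpos).trans ?_
  -- J is at least 0.6 j
  have hJ1 : 6 / 10 * (j : ℝ) ≤ J := by
    have h1 : ((Q ^ 2 : ℕ) : ℝ) ≤ ((10 ^ J : ℕ) : ℝ) := by exact_mod_cast f1
    push_cast at h1
    rw [hQr] at h1
    have h2 := Real.log_le_log (by positivity) h1
    rw [Real.log_pow, Real.log_pow, Real.log_pow] at h2
    push_cast at h2
    have h3 := log_ten_log_two
    have h4 : (6 / 10 * (j : ℝ)) * Real.log 10 ≤ J * Real.log 10 := by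
      have : (j : ℝ) * (3 * Real.log 10) ≤ j * (10 * Real.log 2) :=
        mul_le_mul_of_nonneg_left h3 (Nat.cast_nonneg j)
      nlinarith
    exact le_of_mul_le_mul_right h4 hl10
  have h98 : (98 / 100 : ℝ) ^ J ≤ Real.exp (-(12 / 1000 * j)) := by
    have h1 : (98 / 100 : ℝ) ≤ Real.exp (-(2 / 100)) := by
      have := Real.add_one_le_exp (-(2 / 100) : ℝ)
      linarith
    calc (98 / 100 : ℝ) ^ J ≤ Real.exp (-(2 / 100)) ^ J := pow_le_pow_left₀ (by norm_num) h1 _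
      _ = Real.exp (J * (-(2 / 100))) := by rw [← Real.exp_nat_mul]
      _ ≤ Real.exp (-(12 / 1000 * j)) := by apply Real.exp_le_exp.2; linarith
  have h2Q : (2 * Q : ℝ) ^ (1 / 100 : ℝ) ≤ Real.exp (7 / 1000 * (j + 1)) := by
    have h1 : (2 * Q : ℝ) = Real.exp ((j + 1) * Real.log 2) := by
      rw [hQr]
      have : ((j : ℝ) + 1) = ((j + 1 : ℕ) : ℝ) := by push_cast; ring
      rw [this, Real.exp_nat_mul, Real.exp_log (by norm_num)]
      ring
    rw [h1, ← Real.exp_mul]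
    apply Real.exp_le_exp.2
    have h2 := Real.log_two_lt_d9
    have h3 : (0 : ℝ) ≤ (j : ℝ) + 1 := by positivity
    nlinarith
  calc C * (2 * Q : ℝ) ^ (1 / 100 : ℝ) / Q * (3000 * Q * (98 / 100) ^ J)
      = 3000 * C * ((2 * Q : ℝ) ^ (1 / 100 : ℝ) * (98 / 100) ^ J) := by
        field_simp
    _ ≤ 3000 * C * (Real.exp (7 / 1000 * (j + 1)) * Real.exp (-(12 / 1000 * j))) := by
        apply mul_le_mul_of_nonneg_left _ (by positivity)
        exact mul_le_mul h2Q h98 (by positivity) (Real.exp_pos _).le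
    _ ≤ 3000 * C * (Real.exp 1 * Real.exp (-(c1 / 200 * Real.sqrt L))) := by
        apply mul_le_mul_of_nonneg_left _ (by positivity)
        rw [← Real.exp_add, ← Real.exp_add]
        apply Real.exp_le_exp.2
        linarith
    _ = 3000 * C * Real.exp 1 * Real.exp (-(c1 / 200 * Real.sqrt L)) := by ring

/-- the large range -/
lemma large_range (ε ρ C : ℝ) (hε : 0 < ε) (hρ : 0 < ρ) (hρ1 : 4 * ρ ≤ ε) (hρ2 : ρ ≤ 1 / 400)
    (hC : 0 < C) (A : ℕ)
    (hτ1 : ∀ n : ℕ, 1 ≤ n → (n.divisors.card : ℝ) ≤ C * (n : ℝ) ^ (ρ / 100))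
    (big : ∀ (L k J Q : ℕ) (T : ℝ),
      (∀ n : ℕ, 1 ≤ n → n ≤ 10 ^ (2 * L + 1) → (n.divisors.card : ℝ) ≤ T) →
      4 * k ≤ J → 1 ≤ J → 4 * k + 2 * J ≤ L → Q ≤ 10 ^ J → 10 ^ J ≤ 10 * Q →
      pts Q (Ps L 0 L) ≤ 28 * Q * T * (67 / 100) ^ k) :
    ∀ᶠ L : ℕ in atTop, ∀ j : ℕ, 1 ≤ j →
      (10 : ℝ) ^ ((L : ℝ) / 50) < (2 : ℝ) ^ j → (2 : ℝ) ^ j ≤ (10 : ℝ) ^ ((1 / 2 - ε) * L) →
      ∑ q ∈ (Ico (2 ^ j) (2 * 2 ^ j)).filter (fun q => q.Coprime 10),
        (q.divisors.card : ℝ) ^ 2 * U L q / q ≤ 1 / (L : ℝ) ^ A := by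
  have hε2 : ∀ᶠ L : ℕ in atTop, 2 / ε ≤ (L : ℝ) :=
    tendsto_natCast_atTop_atTop.eventually_ge_atTop _
  filter_upwards [dec (ρ / 5) (28 * C ^ 3 * Real.exp 1) (by positivity) (by positivity) A,
    eventually_ge_atTop 2, hε2] with L hL hL2 hLε j hj hj50 hjD
  refine le_trans ?_ hL
  set Q : ℕ := 2 ^ j with hQ
  have hQ2 : 2 ≤ Q := by
    calc 2 = 2 ^ 1 := by norm_num
      _ ≤ 2 ^ j := Nat.pow_le_pow_right (by norm_num) hj
  have hQ0 : (0 : ℝ) < Q := by exact_mod_cast (show 0 < Q by omega)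
  have hQr : (Q : ℝ) = 2 ^ j := by rw [hQ]; push_cast; ring
  obtain ⟨f1, f2, f3⟩ := clog_facts Q hQ2
  set J : ℕ := Nat.clog 10 Q with hJ
  have hl10 : 0 < Real.log 10 := Real.log_pos (by norm_num)
  have hLp : (2 : ℝ) ≤ L := by exact_mod_cast hL2
  rw [div_le_iff₀ hε] at hLε
  have hlogQ1 : Real.log Q ≤ ((1 / 2 - ε) * L) * Real.log 10 := by
    have := Real.log_le_log (by positivity) hjD
    rw [Real.log_rpow (by norm_num), ← hQr] at this
    exact this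
  have hlogQ2 : (L : ℝ) / 50 * Real.log 10 ≤ Real.log Q := by
    have := Real.log_le_log (by positivity) hj50.le
    rw [Real.log_rpow (by norm_num), ← hQr] at this
    exact this
  have hJu : (J : ℝ) ≤ 1 + (1 / 2 - ε) * L := by
    have h1 : ((10 ^ J : ℕ) : ℝ) ≤ ((10 * Q : ℕ) : ℝ) := by exact_mod_cast f2
    push_cast at h1
    have h2 := Real.log_le_log (by positivity) h1
    rw [Real.log_pow, Real.log_mul (by norm_num) (by positivity)] at h2
    have h3 : (J : ℝ) * Real.log 10 ≤ (1 + (1 / 2 - ε) * L) * Real.log 10 := by linarith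
    exact le_of_mul_le_mul_right h3 hl10
  have hJl : (L : ℝ) / 50 ≤ J := by
    have h1 : (Q : ℝ) ≤ ((10 ^ J : ℕ) : ℝ) := by exact_mod_cast f1
    push_cast at h1
    have h2 := Real.log_le_log (by positivity) h1
    rw [Real.log_pow] at h2
    have h3 : (L : ℝ) / 50 * Real.log 10 ≤ (J : ℝ) * Real.log 10 := by linarith
    exact le_of_mul_le_mul_right h3 hl10
  set k : ℕ := ⌊ρ * L⌋₊ with hk
  have hk1 : (k : ℝ) ≤ ρ * L := Nat.floor_le (by positivity)
  have hk2 : ρ * L < k + 1 := Nat.lt_floor_add_one _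
  have hρL : ρ * L ≤ 1 / 400 * L := mul_le_mul_of_nonneg_right hρ2 (by linarith)
  have hρL' : 4 * ρ * L ≤ ε * L := mul_le_mul_of_nonneg_right hρ1 (by linarith)
  have g1 : 4 * k ≤ J := by
    have : (4 : ℝ) * k ≤ J := by linarith
    exact_mod_cast this
  have g2 : 4 * k + 2 * J ≤ L := by
    have : (4 : ℝ) * k + 2 * J ≤ L := by nlinarith
    exact_mod_cast this
  set T : ℝ := C * ((10 : ℝ) ^ (2 * L + 1)) ^ (ρ / 100) with hT
  have hTp : ∀ n : ℕ, 1 ≤ n → n ≤ 10 ^ (2 * L + 1) → (n.divisors.card : ℝ) ≤ T := by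
    intro n hn1 hn2
    refine (hτ1 n hn1).trans (mul_le_mul_of_nonneg_left ?_ hC.le)
    apply Real.rpow_le_rpow (by positivity) _ (by positivity)
    exact_mod_cast hn2
  have hpts := big L k J Q T hTp g1 f3 g2 f1 f2
  have hτ2 : ∀ n : ℕ, 1 ≤ n → (n.divisors.card : ℝ) ^ 2 ≤ C ^ 2 * (n : ℝ) ^ (ρ / 50) := by
    intro n hn
    have h1 := hτ1 n hn
    have h2 : ((n : ℝ) ^ (ρ / 100)) ^ 2 = (n : ℝ) ^ (ρ / 50) := by
      rw [← Real.rpow_natCast, ← Real.rpow_mul (by positivity)]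
      congr 1
      push_cast
      ring
    calc (n.divisors.card : ℝ) ^ 2 ≤ (C * (n : ℝ) ^ (ρ / 100)) ^ 2 :=
          pow_le_pow_left₀ (by positivity) h1 2
      _ = C ^ 2 * (n : ℝ) ^ (ρ / 50) := by rw [mul_pow, h2]
  have hb := block L Q (by omega) (ρ / 50) (C ^ 2) (by positivity) (by positivity) hτ2
  refine hb.trans ?_
  have hpos : 0 ≤ C ^ 2 * (2 * Q : ℝ) ^ (ρ / 50) / Q := by positivity
  refine (mul_le_mul_of_nonneg_left hpts hpos).trans ?_
  have hl10' := log_ten_le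
  -- size of 2Q
  have h2Q : (2 * Q : ℝ) ^ (ρ / 50) ≤ Real.exp (3 * L * (ρ / 50)) := by
    have h1 : (2 * Q : ℝ) ≤ Real.exp (3 * L) := by
      have h2 : Real.log (2 * Q : ℝ) ≤ 3 * L := by
        rw [Real.log_mul (by norm_num) (by positivity)]
        have h3 := Real.log_two_lt_d9
        have h4 : ((1 / 2 - ε) * L) * Real.log 10 ≤ (1 / 2 * L) * 3 := by
          have h5 : (1 / 2 - ε) * L ≤ 1 / 2 * L := by nlinarith
          calc ((1 / 2 - ε) * L) * Real.log 10 ≤ (1 / 2 * L) * Real.log 10 :=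
                mul_le_mul_of_nonneg_right h5 hl10.le
            _ ≤ (1 / 2 * L) * 3 := mul_le_mul_of_nonneg_left hl10' (by positivity)
        linarith
      calc (2 * Q : ℝ) = Real.exp (Real.log (2 * Q : ℝ)) := (Real.exp_log (by positivity)).symm
        _ ≤ Real.exp (3 * L) := Real.exp_le_exp.2 h2
    calc (2 * Q : ℝ) ^ (ρ / 50) ≤ Real.exp (3 * L) ^ (ρ / 50) :=
          Real.rpow_le_rpow (by positivity) h1 (by positivity)
      _ = Real.exp (3 * L * (ρ / 50)) := by rw [← Real.exp_mul]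
  have hT2 : ((10 : ℝ) ^ (2 * L + 1)) ^ (ρ / 100) ≤ Real.exp (3 * (2 * L + 1) * (ρ / 100)) := by
    have h1 : (10 : ℝ) ^ (2 * L + 1) ≤ Real.exp (3 * (2 * L + 1)) := by
      have h2 : (10 : ℝ) ≤ Real.exp 3 := by
        calc (10 : ℝ) = Real.exp (Real.log 10) := (Real.exp_log (by norm_num)).symm
          _ ≤ Real.exp 3 := Real.exp_le_exp.2 hl10'
      calc (10 : ℝ) ^ (2 * L + 1) ≤ Real.exp 3 ^ (2 * L + 1) := pow_le_pow_left₀ (by norm_num) h2 _
        _ = Real.exp (3 * (2 * L + 1)) := by rw [← Real.exp_nat_mul]; push_cast; ring_nf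
    calc _ ≤ Real.exp (3 * (2 * L + 1)) ^ (ρ / 100) :=
          Real.rpow_le_rpow (by positivity) h1 (by positivity)
      _ = _ := by rw [← Real.exp_mul]
  have h67 : (67 / 100 : ℝ) ^ k ≤ Real.exp (33 / 100 - 33 / 100 * (ρ * L)) := by
    have h1 : (67 / 100 : ℝ) ≤ Real.exp (-(33 / 100)) := by
      have := Real.add_one_le_exp (-(33 / 100) : ℝ)
      linarith
    calc (67 / 100 : ℝ) ^ k ≤ Real.exp (-(33 / 100)) ^ k := pow_le_pow_left₀ (by norm_num) h1 _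
      _ = Real.exp (k * (-(33 / 100))) := by rw [← Real.exp_nat_mul]
      _ ≤ _ := by apply Real.exp_le_exp.2; linarith
  have hsqrt : Real.sqrt L ≤ L := by
    rw [Real.sqrt_le_left (by linarith)]
    nlinarith
  calc C ^ 2 * (2 * Q : ℝ) ^ (ρ / 50) / Q * (28 * Q * T * (67 / 100) ^ k)
      = 28 * C ^ 3 * ((2 * Q : ℝ) ^ (ρ / 50) * ((10 : ℝ) ^ (2 * L + 1)) ^ (ρ / 100)
          * (67 / 100) ^ k) := by
        rw [hT]; field_simp
    _ ≤ 28 * C ^ 3 * (Real.exp (3 * L * (ρ / 50)) * Real.exp (3 * (2 * L + 1) * (ρ / 100))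
          * Real.exp (33 / 100 - 33 / 100 * (ρ * L))) := by
        apply mul_le_mul_of_nonneg_left _ (by positivity)
        exact mul_le_mul (mul_le_mul h2Q hT2 (by positivity) (Real.exp_pos _).le) h67
          (by positivity) (by positivity)
    _ ≤ 28 * C ^ 3 * (Real.exp 1 * Real.exp (-(ρ / 5 * Real.sqrt L))) := by
        apply mul_le_mul_of_nonneg_left _ (by positivity)
        rw [← Real.exp_add, ← Real.exp_add, ← Real.exp_add]
        apply Real.exp_le_exp.2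
        have h1 : ρ / 5 * Real.sqrt L ≤ ρ / 5 * L := mul_le_mul_of_nonneg_left hsqrt (by positivity)
        have h2 : 0 ≤ ρ * L := by positivity
        nlinarith
    _ = 28 * C ^ 3 * Real.exp 1 * Real.exp (-(ρ / 5 * Real.sqrt L)) := by ring

/-- T7, from the statements of T6 (`point`), T5 (`mid`) and T3 (`big`). -/
theorem U_sum_of
    (point : ∃ κ : ℝ, 0 < κ ∧ κ < 1 ∧ ∀ q t a L : ℕ, 1 < q → q.Coprime 10 → a.Coprime q →
      q < 10 ^ t → Ps L 0 L ((a : ℝ) / q) ≤ (1 - κ) ^ ((L - 1) / (2 * t + 2)))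
    (mid : ∀ L J Q : ℕ, 1 + 20 * J ≤ L → 1 ≤ Q → Q ^ 2 ≤ 10 ^ J → 10 ^ J ≤ 10 * Q ^ 2 →
      pts Q (Ps L 0 L) ≤ 3000 * Q * (98 / 100) ^ J)
    (big : ∀ (L k J Q : ℕ) (T : ℝ),
      (∀ n : ℕ, 1 ≤ n → n ≤ 10 ^ (2 * L + 1) → (n.divisors.card : ℝ) ≤ T) →
      4 * k ≤ J → 1 ≤ J → 4 * k + 2 * J ≤ L → Q ≤ 10 ^ J → 10 ^ J ≤ 10 * Q →
      pts Q (Ps L 0 L) ≤ 28 * Q * T * (67 / 100) ^ k)
    (ε : ℝ) (hε : 0 < ε) (A : ℕ) : ∀ᶠ L : ℕ in atTop,
    ∑ q ∈ (Icc 2 ⌊(10 : ℝ) ^ ((1 / 2 - ε) * L)⌋₊).filter (fun q => q.Coprime 10),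
      (q.divisors.card : ℝ) ^ 2 * U L q / q ≤ 1 / (L : ℝ) ^ A := by
  obtain ⟨κ, hκ0, hκ1, hp⟩ := point
  obtain ⟨c1, hc1, hsmall⟩ := small κ hκ0 hκ1 (A + 2)
  -- divisor bounds
  obtain ⟨C1, hC1, hτ1⟩ := divisor_bound (1 / 200) (by norm_num)
  have hτ1' : ∀ n : ℕ, 1 ≤ n → (n.divisors.card : ℝ) ^ 2 ≤ C1 ^ 2 * (n : ℝ) ^ (1 / 100 : ℝ) := by
    intro n hn
    have h1 := hτ1 n hn
    have h2 : ((n : ℝ) ^ (1 / 200 : ℝ)) ^ 2 = (n : ℝ) ^ (1 / 100 : ℝ) := by
      rw [← Real.rpow_natCast, ← Real.rpow_mul (by positivity)]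
      norm_num
    calc (n.divisors.card : ℝ) ^ 2 ≤ (C1 * (n : ℝ) ^ (1 / 200 : ℝ)) ^ 2 :=
          pow_le_pow_left₀ (by positivity) h1 2
      _ = _ := by rw [mul_pow, h2]
  set ρ : ℝ := min (ε / 4) (1 / 400) with hρdef
  have hρ : 0 < ρ := lt_min (by positivity) (by norm_num)
  have hρ1 : 4 * ρ ≤ ε := by
    have : ρ ≤ ε / 4 := min_le_left _ _
    linarith
  have hρ2 : ρ ≤ 1 / 400 := min_le_right _ _
  obtain ⟨C2, hC2, hτ2⟩ := divisor_bound (ρ / 100) (by positivity)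
  have hmid := mid_range c1 (C1 ^ 2) hc1 (by positivity) (A + 2) hτ1' mid
  have hlarge := large_range ε ρ C2 hε hρ hρ1 hρ2 hC2 (A + 2) hτ2 big
  filter_upwards [hsmall, hmid, hlarge, eventually_ge_atTop 2] with L h1 h2 h3 hL2
  set D : ℕ := ⌊(10 : ℝ) ^ ((1 / 2 - ε) * L)⌋₊ with hD
  have hLp : (2 : ℝ) ≤ L := by exact_mod_cast hL2
  have hg : ∀ q : ℕ, 0 ≤ (q.divisors.card : ℝ) ^ 2 * U L q / q := fun q =>
    div_nonneg (mul_nonneg (by positivity) (U_nonneg L q)) (Nat.cast_nonneg q)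
  refine (cover D _ hg).trans ?_
  have hDr : (D : ℝ) ≤ (10 : ℝ) ^ ((1 / 2 - ε) * L) := Nat.floor_le (by positivity)
  have hterm : ∀ j ∈ Icc 1 (Nat.log 2 D),
      ∑ q ∈ (Ico (2 ^ j) (2 * 2 ^ j)).filter (fun q => q.Coprime 10),
        (q.divisors.card : ℝ) ^ 2 * U L q / q ≤ 1 / (L : ℝ) ^ (A + 2) := by
    intro j hj
    rw [mem_Icc] at hj
    have hD0 : D ≠ 0 := by
      intro h0
      rw [h0] at hj
      simp at hj
      omega
    have hjD : (2 : ℝ) ^ j ≤ (10 : ℝ) ^ ((1 / 2 - ε) * L) := by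
      have e1 : 2 ^ j ≤ D :=
        (Nat.pow_le_pow_right (by norm_num) hj.2).trans (Nat.pow_log_le_self 2 hD0)
      have e2 : (2 : ℝ) ^ j ≤ D := by exact_mod_cast e1
      exact e2.trans hDr
    rcases le_or_gt (j : ℝ) (c1 * Real.sqrt L) with h | h
    · exact (block_small κ hκ1 hp L j hj.1).trans (h1 j h)
    · rcases le_or_gt ((2 : ℝ) ^ j) ((10 : ℝ) ^ ((L : ℝ) / 50)) with h' | h'
      · exact h2 j hj.1 h h'
      · exact h3 j hj.1 h' hjD
  refine (sum_le_sum hterm).trans ?_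
  rw [sum_const, nsmul_eq_mul, Nat.card_Icc, Nat.add_sub_cancel]
  have hlog : (Nat.log 2 D : ℝ) ≤ 2 * L := by
    rcases Nat.eq_zero_or_pos D with h0 | h0
    · rw [h0]; simp
    have e1 : 2 ^ Nat.log 2 D ≤ D := Nat.pow_log_le_self 2 h0.ne'
    have e2 : (2 : ℝ) ^ Nat.log 2 D ≤ (10 : ℝ) ^ ((1 / 2 - ε) * L) := by
      have : (2 : ℝ) ^ Nat.log 2 D ≤ D := by exact_mod_cast e1
      exact this.trans hDr
    have e3 := Real.log_le_log (by positivity) e2
    rw [Real.log_pow, Real.log_rpow (by norm_num)] at e3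
    have e4 := log_ten_log_two
    have hl2 : 0 < Real.log 2 := Real.log_pos (by norm_num)
    have hl10 : 0 < Real.log 10 := Real.log_pos (by norm_num)
    have e5 : (1 / 2 - ε) * L * Real.log 10 ≤ (1 / 2 * L) * Real.log 10 := by
      apply mul_le_mul_of_nonneg_right _ hl10.le
      nlinarith
    have e6 : (1 / 2 * (L : ℝ)) * Real.log 10 ≤ 2 * L * Real.log 2 := by
      have : (1 / 2 * (L : ℝ)) * (3 * Real.log 10) ≤ (1 / 2 * L) * (10 * Real.log 2) :=
        mul_le_mul_of_nonneg_left e4 (by positivity)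
      nlinarith
    exact le_of_mul_le_mul_right (e3.trans (e5.trans e6)) hl2
  calc (Nat.log 2 D : ℝ) * (1 / (L : ℝ) ^ (A + 2)) ≤ 2 * L * (1 / (L : ℝ) ^ (A + 2)) :=
        mul_le_mul_of_nonneg_right hlog (by positivity)
    _ ≤ 1 / (L : ℝ) ^ A := by
        rw [mul_one_div, div_le_div_iff₀ (by positivity) (by positivity), one_mul, pow_add]
        have h0 : 0 < (L : ℝ) ^ A := by positivity
        have : 2 * (L : ℝ) ≤ L ^ 2 := by nlinarith
        nlinarith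

end Pool.Agent.H760R2.PalT7
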