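import Pool.Agent.H760R2.PalT7

/-!
# Q4: summation over `q` up to `10^(3L/5)` (asymptotic bookkeeping)
-/

set_option autoImplicit false

namespace Pool.Agent.H760R2.PalQ4

open Finset Filter Topology Pool.Agent.Helper112 Pool.Agent.H476R2.Pal Pool.Agent.H760R2.PalT7

set_option exponentiation.threshold 2000 in
lemma log_2508 : Real.log (2508 / 10000) ≤ -(218 / 363) * Real.log 10 := by
  have h1 : ((2508 : ℝ) / 10000) ^ 363 ≤ ((1 : ℝ) / 10) ^ 218 := by norm_num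
  have h2 := Real.log_le_log (by positivity) h1
  rw [Real.log_pow, Real.log_pow, one_div, Real.log_inv] at h2
  push_cast at h2
  linarith

/-- the large range -/
lemma large_range2 (C : ℝ) (hC : 0 < C) (A : ℕ)
    (hτ1 : ∀ n : ℕ, 1 ≤ n → (n.divisors.card : ℝ) ≤ C * (n : ℝ) ^ (1 / 10 ^ 8 : ℝ))
    (big2 : ∀ (L k K J Q : ℕ) (T lam : ℝ), 0 < lam → lam ≤ 1 →
      (∀ n : ℕ, 1 ≤ n → n ≤ 10 ^ (2 * L + 1) → (n.divisors.card : ℝ) ≤ T) →
      1 ≤ J → J ≤ k * K → J ≤ L → Q ≤ 10 ^ J → 10 ^ J ≤ 10 * Q →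
      pts Q (Ps L 0 L) ≤ 2 * k * lam * Q * (Q * (2508 / 10000) ^ (L - K) + T) +
        144 * Q * (67 / 100) ^ J / lam ^ (3 * k)) :
    ∀ᶠ L : ℕ in atTop, ∀ j : ℕ, 1 ≤ j →
      (10 : ℝ) ^ ((L : ℝ) / 50) < (2 : ℝ) ^ j → (2 : ℝ) ^ j ≤ (10 : ℝ) ^ ((3 / 5 : ℝ) * L) →
      ∑ q ∈ (Ico (2 ^ j) (2 * 2 ^ j)).filter (fun q => q.Coprime 10),
        (q.divisors.card : ℝ) ^ 2 * U L q / q ≤ 1 / (L : ℝ) ^ A := by
  filter_upwards [dec (1 / 10 ^ 7) (4144 * C ^ 3 * Real.exp 1) (by positivity) (by positivity) A,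
    eventually_ge_atTop 10000] with L hL hL2 j hj hj50 hjD
  refine le_trans ?_ hL
  set Q : ℕ := 2 ^ j with hQ
  have hQ2 : 2 ≤ Q := by
    calc 2 = 2 ^ 1 := by norm_num
      _ ≤ 2 ^ j := Nat.pow_le_pow_right (by norm_num) hj
  have hQ0 : (0 : ℝ) < Q := by exact_mod_cast (show 0 < Q by omega)
  have hQr : (Q : ℝ) = 2 ^ j := by rw [hQ]; push_cast; ring
  obtain ⟨f1, f2, f3⟩ := clog_facts Q hQ2
  set J : ℕ := Nat.clog 10 Q with hJ
  have hl10 : 0 < Real.log 10 := Real.log_pos (by norm_num)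
  have hLp : (10000 : ℝ) ≤ L := by exact_mod_cast hL2
  have hlogQ1 : Real.log Q ≤ ((3 / 5 : ℝ) * L) * Real.log 10 := by
    have := Real.log_le_log (by positivity) hjD
    rw [Real.log_rpow (by norm_num), ← hQr] at this
    exact this
  have hlogQ2 : (L : ℝ) / 50 * Real.log 10 ≤ Real.log Q := by
    have := Real.log_le_log (by positivity) hj50.le
    rw [Real.log_rpow (by norm_num), ← hQr] at this
    exact this
  have hJu : (J : ℝ) ≤ 1 + (3 / 5 : ℝ) * L := by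
    have h1 : ((10 ^ J : ℕ) : ℝ) ≤ ((10 * Q : ℕ) : ℝ) := by exact_mod_cast f2
    push_cast at h1
    have h2 := Real.log_le_log (by positivity) h1
    rw [Real.log_pow, Real.log_mul (by norm_num) (by positivity)] at h2
    have h3 : (J : ℝ) * Real.log 10 ≤ (1 + (3 / 5 : ℝ) * L) * Real.log 10 := by linarith
    exact le_of_mul_le_mul_right h3 hl10
  have hJl : (L : ℝ) / 50 ≤ J := by
    have h1 : (Q : ℝ) ≤ ((10 ^ J : ℕ) : ℝ) := by exact_mod_cast f1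
    push_cast at h1
    have h2 := Real.log_le_log (by positivity) h1
    rw [Real.log_pow] at h2
    have h3 : (L : ℝ) / 50 * Real.log 10 ≤ (J : ℝ) * Real.log 10 := by linarith
    exact le_of_mul_le_mul_right h3 hl10
  have hJL : J ≤ L := by
    have : (J : ℝ) ≤ L := by linarith
    exact_mod_cast this
  set K : ℕ := J / 1000 + 1 with hK
  have hJK : J ≤ 1000 * K := by omega
  have hKr : (K : ℝ) ≤ 6 / 10000 * L + 1001 / 1000 := by
    have h1 : 1000 * (J / 1000) ≤ J := Nat.mul_div_le J 1000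
    have h2 : (1000 : ℝ) * ((J / 1000 : ℕ) : ℝ) ≤ J := by exact_mod_cast h1
    rw [hK]
    push_cast
    linarith
  have hKL : K ≤ L := by
    have : (K : ℝ) ≤ L := by linarith
    exact_mod_cast this
  set mm : ℕ := J / 6000 with hmm
  have hmJ : 6000 * mm ≤ J := Nat.mul_div_le J 6000
  have hmJ2 : (L : ℝ) / 300000 - 1 ≤ mm := by
    have h1 : J < 6000 * (mm + 1) := Nat.lt_mul_div_succ J (by norm_num)
    have h2 : (J : ℝ) ≤ 6000 * (mm + 1) := by exact_mod_cast h1.le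
    linarith
  set lam : ℝ := (67 / 100 : ℝ) ^ mm with hlam
  have hlam0 : 0 < lam := by positivity
  have hlam1 : lam ≤ 1 := pow_le_one₀ (by norm_num) (by norm_num)
  set T : ℝ := C * ((10 : ℝ) ^ (2 * L + 1)) ^ (1 / 10 ^ 8 : ℝ) with hT
  have hTp : ∀ n : ℕ, 1 ≤ n → n ≤ 10 ^ (2 * L + 1) → (n.divisors.card : ℝ) ≤ T := by
    intro n hn1 hn2
    refine (hτ1 n hn1).trans (mul_le_mul_of_nonneg_left ?_ hC.le)
    apply Real.rpow_le_rpow (by positivity) _ (by positivity)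
    exact_mod_cast hn2
  have hT1 : 1 ≤ T := by
    have := hTp 1 le_rfl (Nat.one_le_pow _ _ (by norm_num))
    simpa using this
  have hpts := big2 L 1000 K J Q T lam hlam0 hlam1 hTp f3 hJK hJL f1 f2
  -- the sieve term
  have hQs : (Q : ℝ) * (2508 / 10000) ^ (L - K) ≤ 1 := by
    have h1 : Real.log ((Q : ℝ) * (2508 / 10000) ^ (L - K)) ≤ 0 := by
      rw [Real.log_mul (by positivity) (by positivity), Real.log_pow, Nat.cast_sub hKL]
      have h2 : ((L : ℝ) - K) * Real.log (2508 / 10000) ≤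
          (L - K) * (-(218 / 363) * Real.log 10) := by
        apply mul_le_mul_of_nonneg_left log_2508
        have : (K : ℝ) ≤ L := by exact_mod_cast hKL
        linarith
      have h3 : ((3 / 5 : ℝ) * L - (L - K) * (218 / 363)) ≤ 0 := by linarith
      have h4 : ((3 / 5 : ℝ) * L - (L - K) * (218 / 363)) * Real.log 10 ≤ 0 :=
        mul_nonpos_of_nonpos_of_nonneg h3 hl10.le
      nlinarith
    have h5 : 0 < (Q : ℝ) * (2508 / 10000) ^ (L - K) := by positivity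
    rw [← Real.exp_log h5]
    exact Real.exp_le_one_iff.2 h1
  have hsec : (67 / 100 : ℝ) ^ J / lam ^ (3 * 1000) ≤ lam := by
    rw [div_le_iff₀ (by positivity), hlam, ← pow_mul, ← pow_add]
    exact pow_le_pow_of_le_one (by norm_num) (by norm_num) (by omega)
  have hpts2 : pts Q (Ps L 0 L) ≤ 4144 * Q * lam * T := by
    refine hpts.trans ?_
    have h1 : 2 * ((1000 : ℕ) : ℝ) * lam * Q * (Q * (2508 / 10000) ^ (L - K) + T) ≤
        2 * ((1000 : ℕ) : ℝ) * lam * Q * (T + T) :=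
      mul_le_mul_of_nonneg_left (by linarith) (by positivity)
    have h2 : 144 * Q * (67 / 100 : ℝ) ^ J / lam ^ (3 * 1000) ≤ 144 * Q * lam := by
      rw [mul_div_assoc]
      exact mul_le_mul_of_nonneg_left hsec (by positivity)
    have h3 : 144 * (Q : ℝ) * lam * 1 ≤ 144 * Q * lam * T :=
      mul_le_mul_of_nonneg_left hT1 (by positivity)
    have h4 : 2 * ((1000 : ℕ) : ℝ) * lam * Q * (T + T) = 4000 * Q * lam * T := by
      push_cast; ring
    linarith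
  have hτ2 : ∀ n : ℕ, 1 ≤ n → (n.divisors.card : ℝ) ^ 2 ≤ C ^ 2 * (n : ℝ) ^ (2 / 10 ^ 8 : ℝ) := by
    intro n hn
    have h1 := hτ1 n hn
    have h2 : ((n : ℝ) ^ (1 / 10 ^ 8 : ℝ)) ^ 2 = (n : ℝ) ^ (2 / 10 ^ 8 : ℝ) := by
      rw [← Real.rpow_natCast, ← Real.rpow_mul (by positivity)]
      norm_num
    calc (n.divisors.card : ℝ) ^ 2 ≤ (C * (n : ℝ) ^ (1 / 10 ^ 8 : ℝ)) ^ 2 :=
          pow_le_pow_left₀ (by positivity) h1 2
      _ = C ^ 2 * (n : ℝ) ^ (2 / 10 ^ 8 : ℝ) := by rw [mul_pow, h2]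
  have hb := block L Q (by omega) (2 / 10 ^ 8) (C ^ 2) (by positivity) (by positivity) hτ2
  refine hb.trans ?_
  have hpos : 0 ≤ C ^ 2 * (2 * Q : ℝ) ^ (2 / 10 ^ 8 : ℝ) / Q := by positivity
  refine (mul_le_mul_of_nonneg_left hpts2 hpos).trans ?_
  have hl10' := log_ten_le
  -- size of 2Q
  have h2Q : (2 * Q : ℝ) ^ (2 / 10 ^ 8 : ℝ) ≤ Real.exp (3 * L * (2 / 10 ^ 8)) := by
    have h1 : (2 * Q : ℝ) ≤ Real.exp (3 * L) := by
      have h2 : Real.log (2 * Q : ℝ) ≤ 3 * L := by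
        rw [Real.log_mul (by norm_num) (by positivity)]
        have h3 := Real.log_two_lt_d9
        have h4 : ((3 / 5 : ℝ) * L) * Real.log 10 ≤ ((3 / 5 : ℝ) * L) * 3 :=
          mul_le_mul_of_nonneg_left hl10' (by positivity)
        linarith
      calc (2 * Q : ℝ) = Real.exp (Real.log (2 * Q : ℝ)) := (Real.exp_log (by positivity)).symm
        _ ≤ Real.exp (3 * L) := Real.exp_le_exp.2 h2
    calc (2 * Q : ℝ) ^ (2 / 10 ^ 8 : ℝ) ≤ Real.exp (3 * L) ^ (2 / 10 ^ 8 : ℝ) :=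
          Real.rpow_le_rpow (by positivity) h1 (by positivity)
      _ = Real.exp (3 * L * (2 / 10 ^ 8)) := by rw [← Real.exp_mul]
  have hT2 : ((10 : ℝ) ^ (2 * L + 1)) ^ (1 / 10 ^ 8 : ℝ) ≤
      Real.exp (3 * (2 * L + 1) * (1 / 10 ^ 8)) := by
    have h1 : (10 : ℝ) ^ (2 * L + 1) ≤ Real.exp (3 * (2 * L + 1)) := by
      have h2 : (10 : ℝ) ≤ Real.exp 3 := by
        calc (10 : ℝ) = Real.exp (Real.log 10) := (Real.exp_log (by norm_num)).symm
          _ ≤ Real.exp 3 := Real.exp_le_exp.2 hl10'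
      calc (10 : ℝ) ^ (2 * L + 1) ≤ Real.exp 3 ^ (2 * L + 1) := pow_le_pow_left₀ (by norm_num) h2 _
        _ = Real.exp (3 * (2 * L + 1)) := by rw [← Real.exp_nat_mul]; push_cast; ring_nf
    calc _ ≤ Real.exp (3 * (2 * L + 1)) ^ (1 / 10 ^ 8 : ℝ) :=
          Real.rpow_le_rpow (by positivity) h1 (by positivity)
      _ = _ := by rw [← Real.exp_mul]
  have h67 : lam ≤ Real.exp (33 / 100 - 33 / 100 * (L / 300000)) := by
    have h1 : (67 / 100 : ℝ) ≤ Real.exp (-(33 / 100)) := by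
      have := Real.add_one_le_exp (-(33 / 100) : ℝ)
      linarith
    calc (67 / 100 : ℝ) ^ mm ≤ Real.exp (-(33 / 100)) ^ mm := pow_le_pow_left₀ (by norm_num) h1 _
      _ = Real.exp (mm * (-(33 / 100))) := by rw [← Real.exp_nat_mul]
      _ ≤ _ := by apply Real.exp_le_exp.2; linarith
  have hsqrt : Real.sqrt L ≤ L := by
    rw [Real.sqrt_le_left (by linarith)]
    nlinarith
  calc C ^ 2 * (2 * Q : ℝ) ^ (2 / 10 ^ 8 : ℝ) / Q * (4144 * Q * lam * T)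
      = 4144 * C ^ 3 * ((2 * Q : ℝ) ^ (2 / 10 ^ 8 : ℝ) * ((10 : ℝ) ^ (2 * L + 1)) ^ (1 / 10 ^ 8 : ℝ)
          * lam) := by
        rw [hT]; field_simp
    _ ≤ 4144 * C ^ 3 * (Real.exp (3 * L * (2 / 10 ^ 8)) * Real.exp (3 * (2 * L + 1) * (1 / 10 ^ 8))
          * Real.exp (33 / 100 - 33 / 100 * (L / 300000))) := by
        apply mul_le_mul_of_nonneg_left _ (by positivity)
        exact mul_le_mul (mul_le_mul h2Q hT2 (by positivity) (Real.exp_pos _).le) h67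
          (by positivity) (by positivity)
    _ ≤ 4144 * C ^ 3 * (Real.exp 1 * Real.exp (-(1 / 10 ^ 7 * Real.sqrt L))) := by
        apply mul_le_mul_of_nonneg_left _ (by positivity)
        rw [← Real.exp_add, ← Real.exp_add, ← Real.exp_add]
        apply Real.exp_le_exp.2
        have h1 : (1 / 10 ^ 7 : ℝ) * Real.sqrt L ≤ 1 / 10 ^ 7 * L :=
          mul_le_mul_of_nonneg_left hsqrt (by positivity)
        nlinarith
    _ = 4144 * C ^ 3 * Real.exp 1 * Real.exp (-(1 / 10 ^ 7 * Real.sqrt L)) := by ring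

/-- Q4, from the statements of T6 (`point`), T5 (`mid`) and Q3 (`big2`). -/
theorem U_sum2_of
    (point : ∃ κ : ℝ, 0 < κ ∧ κ < 1 ∧ ∀ q t a L : ℕ, 1 < q → q.Coprime 10 → a.Coprime q →
      q < 10 ^ t → Ps L 0 L ((a : ℝ) / q) ≤ (1 - κ) ^ ((L - 1) / (2 * t + 2)))
    (mid : ∀ L J Q : ℕ, 1 + 20 * J ≤ L → 1 ≤ Q → Q ^ 2 ≤ 10 ^ J → 10 ^ J ≤ 10 * Q ^ 2 →
      pts Q (Ps L 0 L) ≤ 3000 * Q * (98 / 100) ^ J)
    (big2 : ∀ (L k K J Q : ℕ) (T lam : ℝ), 0 < lam → lam ≤ 1 →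
      (∀ n : ℕ, 1 ≤ n → n ≤ 10 ^ (2 * L + 1) → (n.divisors.card : ℝ) ≤ T) →
      1 ≤ J → J ≤ k * K → J ≤ L → Q ≤ 10 ^ J → 10 ^ J ≤ 10 * Q →
      pts Q (Ps L 0 L) ≤ 2 * k * lam * Q * (Q * (2508 / 10000) ^ (L - K) + T) +
        144 * Q * (67 / 100) ^ J / lam ^ (3 * k))
    (A : ℕ) : ∀ᶠ L : ℕ in atTop,
    ∑ q ∈ (Icc 2 ⌊(10 : ℝ) ^ ((3 / 5 : ℝ) * L)⌋₊).filter (fun q => q.Coprime 10),
      (q.divisors.card : ℝ) ^ 2 * U L q / q ≤ 1 / (L : ℝ) ^ A := by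
  obtain ⟨κ, hκ0, hκ1, hp⟩ := point
  obtain ⟨c1, hc1, hsmall⟩ := small κ hκ0 hκ1 (A + 3)
  -- divisor bounds
  obtain ⟨C1, hC1, hτ1⟩ := divisor_bound (1 / 200) (by norm_num)
  have hτ1' : ∀ n : ℕ, 1 ≤ n → (n.divisors.card : ℝ) ^ 2 ≤ C1 ^ 2 * (n : ℝ) ^ (1 / 100 : ℝ) := by
    intro n hn
    have h1 := hτ1 n hn
    have h2 : ((n : ℝ) ^ (1 / 200 : ℝ)) ^ 2 = (n : ℝ) ^ (1 / 100 : ℝ) := by
      rw [← Real.rpow_natCast, ← Real.rpow_mul (by positivity)]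
      norm_num
    calc (n.divisors.card : ℝ) ^ 2 ≤ (C1 * (n : ℝ) ^ (1 / 200 : ℝ)) ^ 2 :=
          pow_le_pow_left₀ (by positivity) h1 2
      _ = _ := by rw [mul_pow, h2]
  obtain ⟨C2, hC2, hτ2⟩ := divisor_bound (1 / 10 ^ 8) (by positivity)
  have hmid := mid_range c1 (C1 ^ 2) hc1 (by positivity) (A + 3) hτ1' mid
  have hlarge := large_range2 C2 hC2 (A + 3) hτ2 big2
  filter_upwards [hsmall, hmid, hlarge, eventually_ge_atTop 3] with L h1 h2 h3 hL2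
  set D : ℕ := ⌊(10 : ℝ) ^ ((3 / 5 : ℝ) * L)⌋₊ with hD
  have hLp : (3 : ℝ) ≤ L := by exact_mod_cast hL2
  have hg : ∀ q : ℕ, 0 ≤ (q.divisors.card : ℝ) ^ 2 * U L q / q := fun q =>
    div_nonneg (mul_nonneg (by positivity) (U_nonneg L q)) (Nat.cast_nonneg q)
  refine (cover D _ hg).trans ?_
  have hDr : (D : ℝ) ≤ (10 : ℝ) ^ ((3 / 5 : ℝ) * L) := Nat.floor_le (by positivity)
  have hterm : ∀ j ∈ Icc 1 (Nat.log 2 D),
      ∑ q ∈ (Ico (2 ^ j) (2 * 2 ^ j)).filter (fun q => q.Coprime 10),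
        (q.divisors.card : ℝ) ^ 2 * U L q / q ≤ 1 / (L : ℝ) ^ (A + 3) := by
    intro j hj
    rw [mem_Icc] at hj
    have hD0 : D ≠ 0 := by
      intro h0
      rw [h0] at hj
      simp at hj
      omega
    have hjD : (2 : ℝ) ^ j ≤ (10 : ℝ) ^ ((3 / 5 : ℝ) * L) := by
      have e1 : 2 ^ j ≤ D :=
        (Nat.pow_le_pow_right (by norm_num) hj.2).trans (Nat.pow_log_le_self 2 hD0)
      have e2 : (2 : ℝ) ^ j ≤ D := by exact_mod_cast e1
      exact e2.trans hDr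
    rcases le_or_gt (j : ℝ) (c1 * Real.sqrt L) with h | h
    · exact (block_small κ hκ1 hp L j hj.1).trans (h1 j h)
    · rcases le_or_gt ((2 : ℝ) ^ j) ((10 : ℝ) ^ ((L : ℝ) / 50)) with h' | h'
      · exact h2 j hj.1 h h'
      · exact h3 j hj.1 h' hjD
  refine (sum_le_sum hterm).trans ?_
  rw [sum_const, nsmul_eq_mul, Nat.card_Icc, Nat.add_sub_cancel]
  have hlog : (Nat.log 2 D : ℝ) ≤ 3 * L := by
    rcases Nat.eq_zero_or_pos D with h0 | h0
    · rw [h0]; simp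
    have e1 : 2 ^ Nat.log 2 D ≤ D := Nat.pow_log_le_self 2 h0.ne'
    have e2 : (2 : ℝ) ^ Nat.log 2 D ≤ (10 : ℝ) ^ ((3 / 5 : ℝ) * L) := by
      have : (2 : ℝ) ^ Nat.log 2 D ≤ D := by exact_mod_cast e1
      exact this.trans hDr
    have e3 := Real.log_le_log (by positivity) e2
    rw [Real.log_pow, Real.log_rpow (by norm_num)] at e3
    have e4 := log_ten_log_two
    have hl2 : 0 < Real.log 2 := Real.log_pos (by norm_num)
    have e6 : ((3 / 5 : ℝ) * L) * Real.log 10 ≤ 3 * L * Real.log 2 := by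
      have : ((1 / 5 : ℝ) * L) * (3 * Real.log 10) ≤ ((1 / 5 : ℝ) * L) * (10 * Real.log 2) :=
        mul_le_mul_of_nonneg_left e4 (by positivity)
      nlinarith [mul_nonneg (Nat.cast_nonneg (α := ℝ) L) hl2.le]
    exact le_of_mul_le_mul_right (e3.trans e6) hl2
  calc (Nat.log 2 D : ℝ) * (1 / (L : ℝ) ^ (A + 3)) ≤ 3 * L * (1 / (L : ℝ) ^ (A + 3)) :=
        mul_le_mul_of_nonneg_right hlog (by positivity)
    _ ≤ 1 / (L : ℝ) ^ A := by
        rw [mul_one_div, div_le_div_iff₀ (by positivity) (by positivity), one_mul, pow_add]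
        have h0 : 0 < (L : ℝ) ^ A := by positivity
        have : 3 * (L : ℝ) ≤ L ^ 3 := by nlinarith [mul_pos (show (0:ℝ) < L by linarith) (show (0:ℝ) < L by linarith)]
        nlinarith

end Pool.Agent.H760R2.PalQ4
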